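import Pool.Agent.Q19.HO.Stm

/-!
Project HO (helper19), job KER: the kernels of the actions.
-/

set_option autoImplicit false

namespace Pool.Agent.Q76.HO.KER

open Matrix Pool.Agent.Q19.HO

variable {K : Type} [Field K]

theorem act_apply {n : ℕ} (t : Oct K ≃ₗ[K] Oct K) (g : (Matrix (Fin n) (Fin n) K)ˣ)
    (X : Mat n K) (i j : Fin n) :
    act t g X i j = ∑ l, ((↑g⁻¹ : Matrix (Fin n) (Fin n) K) l j) •
      ∑ k, ((g : Matrix (Fin n) (Fin n) K) i k) • t (X k l) := by
  unfold act
  rw [Matrix.mul_apply]
  refine Finset.sum_congr rfl fun l _ => ?_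
  rw [Matrix.mul_apply]
  have h1 : ∀ x : Oct K, x * re (↑g⁻¹ : Matrix (Fin n) (Fin n) K) l j =
      ((↑g⁻¹ : Matrix (Fin n) (Fin n) K) l j) • x := by
    intro x
    show x * (((↑g⁻¹ : Matrix (Fin n) (Fin n) K) l j) • (1 : Oct K)) = _
    rw [mul_smul', mul_one]
  rw [h1]
  congr 1
  refine Finset.sum_congr rfl fun k _ => ?_
  show (((g : Matrix (Fin n) (Fin n) K) i k) • (1 : Oct K)) * t (X k l) = _
  rw [Pool.Agent.Q19.HO.smul_mul', one_mul]

theorem act_ten {n : ℕ} (t : Oct K ≃ₗ[K] Oct K) (g : (Matrix (Fin n) (Fin n) K)ˣ)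
    (s : Matrix (Fin n) (Fin n) K) (o : Oct K) :
    act t g (ten s o) = ten ((g : Matrix (Fin n) (Fin n) K) * s *
      (↑g⁻¹ : Matrix (Fin n) (Fin n) K)) (t o) := by
  funext i j
  rw [act_apply]
  show _ = (((g : Matrix (Fin n) (Fin n) K) * s * (↑g⁻¹ : Matrix (Fin n) (Fin n) K)) i j) • t o
  rw [Matrix.mul_apply, Finset.sum_smul]
  refine Finset.sum_congr rfl fun l _ => ?_
  rw [Matrix.mul_apply, Finset.sum_mul, Finset.sum_smul, Finset.smul_sum]
  refine Finset.sum_congr rfl fun k _ => ?_
  show _ • (_ • t (s k l • o)) = _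
  rw [map_smul, smul_smul, smul_smul]
  congr 1
  ring

theorem comm_scalar {n : ℕ} (g : Matrix (Fin n) (Fin n) K)
    (h : ∀ s : Matrix (Fin n) (Fin n) K, sᵀ = s → g * s = s * g) :
    ∃ r : K, g = r • 1 := by
  have h1 : g ∈ Set.range (Matrix.scalar (Fin n)) := by
    refine Matrix.mem_range_scalar_of_commute_single fun i j hij => ?_
    have e1 := h (Matrix.single i i 1) (Matrix.transpose_single _ _ _)
    have e2 := h (Matrix.single i j 1 + Matrix.single j i 1) (by
      rw [Matrix.transpose_add, Matrix.transpose_single, Matrix.transpose_single, add_comm])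
    have e3 : (Matrix.single i j (1 : K)) =
        Matrix.single i i 1 * (Matrix.single i j 1 + Matrix.single j i 1) := by
      rw [Matrix.mul_add, Matrix.single_mul_single_same,
        Matrix.single_mul_single_of_ne _ _ _ _ hij, mul_one, add_zero]
    show Matrix.single i j 1 * g = g * Matrix.single i j 1
    rw [e3, Matrix.mul_assoc, ← e2, ← Matrix.mul_assoc, ← e1, Matrix.mul_assoc]
  obtain ⟨r, hr⟩ := h1
  refine ⟨r, ?_⟩
  rw [← hr, Matrix.scalar_apply, Matrix.smul_one_eq_diagonal]

theorem comm_of_conj {n : ℕ} (g : (Matrix (Fin n) (Fin n) K)ˣ)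
    (s : Matrix (Fin n) (Fin n) K)
    (h : (g : Matrix (Fin n) (Fin n) K) * s * (↑g⁻¹ : Matrix (Fin n) (Fin n) K) = s) :
    (g : Matrix (Fin n) (Fin n) K) * s = s * g := by
  have h1 := congrArg (fun M => M * (g : Matrix (Fin n) (Fin n) K)) h
  simp only [Matrix.mul_assoc, Units.inv_mul, Matrix.mul_one] at h1
  exact h1

theorem t_KER (h : S_TST) : S_KER := by
  intro K _ n h2 t ht g
  obtain ⟨ht1, hts⟩ := (h K h2).1 t ht
  constructor
  · intro hn hX
    have hcomm : ∀ s : Matrix (Fin n) (Fin n) K, sᵀ = s →
        (g : Matrix (Fin n) (Fin n) K) * s = s * g := by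
      intro s hs
      refine comm_of_conj g s ?_
      have hmem : ten s (1 : Oct K) ∈ SymP n K := by
        intro i j
        show star (s j i • (1 : Oct K)) = s i j • (1 : Oct K)
        have hsij : s j i = s i j := by
          have := congrFun (congrFun hs i) j
          exact this
        rw [star_smul', star_one, hsij]
      have h3 := hX _ hmem
      rw [act_ten, ht1] at h3
      ext i j
      have h4 := congrFun (congrFun h3 i) j
      have h5 := congrFun h4 0
      have h6 : ∀ r : K, (r • (1 : Oct K)) 0 = r := by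
        intro r
        rw [smul_ap, one0, mul_one]
      have h7 : (((g : Matrix (Fin n) (Fin n) K) * s *
        (↑g⁻¹ : Matrix (Fin n) (Fin n) K)) i j • (1 : Oct K)) 0 = (s i j • (1 : Oct K)) 0 := h5
      rwa [h6, h6] at h7
    obtain ⟨r, hr⟩ := comm_scalar _ hcomm
    refine ⟨?_, r, hr⟩
    -- `act t g X = X.map t`
    have hrg : r • (↑g⁻¹ : Matrix (Fin n) (Fin n) K) = 1 := by
      have h3 : (g : Matrix (Fin n) (Fin n) K) * (↑g⁻¹ : Matrix (Fin n) (Fin n) K) = 1 :=
        Units.mul_inv g
      rw [hr, Matrix.smul_mul, Matrix.one_mul] at h3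
      exact h3
    have hact : ∀ (X : Mat n K) (i j : Fin n), act t g X i j = t (X i j) := by
      intro X i j
      rw [act_apply]
      have h4 : ∀ l, ∑ k, ((g : Matrix (Fin n) (Fin n) K) i k) • t (X k l) = r • t (X i l) := by
        intro l
        rw [Finset.sum_eq_single i]
        · rw [hr, Matrix.smul_apply, Matrix.one_apply_eq, smul_eq_mul, mul_one]
        · intro k _ hk
          rw [hr, Matrix.smul_apply, Matrix.one_apply_ne (Ne.symm hk), smul_zero, zero_smul]
        · intro h5
          exact absurd (Finset.mem_univ i) h5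
      simp only [h4]
      have h5 : ∀ l, ((↑g⁻¹ : Matrix (Fin n) (Fin n) K) l j) • r • t (X i l) =
          ((1 : Matrix (Fin n) (Fin n) K) l j) • t (X i l) := by
        intro l
        rw [← hrg, Matrix.smul_apply, smul_eq_mul, smul_smul, mul_comm]
      simp only [h5]
      rw [Finset.sum_eq_single j]
      · rw [Matrix.one_apply_eq, one_smul]
      · intro l _ hl
        rw [Matrix.one_apply_ne hl, zero_smul]
      · intro h6
        exact absurd (Finset.mem_univ j) h6
    have hfix : ∀ o : Oct K, t o = o := by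
      intro o
      let i0 : Fin n := ⟨0, by omega⟩
      let i1 : Fin n := ⟨1, by omega⟩
      have hne : i0 ≠ i1 := by
        intro h7
        have := congrArg Fin.val h7
        simp [i0, i1] at this
      let X : Mat n K := fun i j => if i = i0 ∧ j = i1 then o else
        if i = i1 ∧ j = i0 then star o else 0
      have hXmem : X ∈ SymP n K := by
        intro i j
        show star (if j = i0 ∧ i = i1 then o else if j = i1 ∧ i = i0 then star o else 0) =
          if i = i0 ∧ j = i1 then o else if i = i1 ∧ j = i0 then star o else 0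
        by_cases h8 : i = i0 ∧ j = i1
        · obtain ⟨rfl, rfl⟩ := h8
          rw [if_neg (fun h9 => hne h9.2), if_pos ⟨rfl, rfl⟩, if_pos ⟨rfl, rfl⟩, star_star]
        · by_cases h9 : i = i1 ∧ j = i0
          · obtain ⟨rfl, rfl⟩ := h9
            rw [if_pos ⟨rfl, rfl⟩, if_neg h8, if_pos ⟨rfl, rfl⟩]
          · rw [if_neg (fun h10 => h9 ⟨h10.2, h10.1⟩), if_neg (fun h10 => h8 ⟨h10.2, h10.1⟩),
              if_neg h8, if_neg h9, star_zero]
      have h10 := hX X hXmem
      have h11 := congrFun (congrFun h10 i0) i1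
      rw [hact] at h11
      have h12 : X i0 i1 = o := if_pos ⟨rfl, rfl⟩
      rwa [h12] at h11
    exact LinearEquiv.ext hfix
  · intro hn hX
    have hten : ∀ (s : Matrix (Fin n) (Fin n) K), sᵀ = s → ∀ o : Oct K, Im o →
        ten ((g : Matrix (Fin n) (Fin n) K) * s * (↑g⁻¹ : Matrix (Fin n) (Fin n) K)) (t o) =
          ten s o := by
      intro s hs o ho
      rw [← act_ten]
      refine hX _ ?_
      intro i j
      show star (s j i • o) = -(s i j • o)
      have hsij : s j i = s i j := congrFun (congrFun hs i) j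
      have hso : star o = -o := by
        unfold Im at ho
        have e0 : o 1 = -o 0 := by linear_combination ho
        have e1 : o 0 = -o 1 := by linear_combination ho
        refine oct_ext fun i => ?_
        fin_cases i
        · exact e0
        · exact e1
        · rfl
        · rfl
        · rfl
        · rfl
        · rfl
        · rfl
      rw [star_smul', hso, hsij, smul_neg]
    have him : ∀ o : Oct K, Im o → t o = o := by
      intro o ho
      have h3 := hten 1 Matrix.transpose_one o ho
      rw [Matrix.mul_one, Units.mul_inv] at h3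
      let i0 : Fin n := ⟨0, by omega⟩
      have h4 := congrFun (congrFun h3 i0) i0
      have h5 : (1 : Matrix (Fin n) (Fin n) K) i0 i0 • t o =
        (1 : Matrix (Fin n) (Fin n) K) i0 i0 • o := h4
      rwa [Matrix.one_apply_eq, one_smul, one_smul] at h5
    have hfix : ∀ x : Oct K, t x = x := by
      intro x
      have h3 : Im (x - ((x 0 + x 1) / 2) • (1 : Oct K)) := by
        unfold Im
        rw [sub_ap, sub_ap, smul_ap, smul_ap, one0, one1]
        field_simp
        ring
      have h4 := him _ h3
      rw [map_sub, map_smul, ht1] at h4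
      exact sub_left_injective h4
    refine ⟨LinearEquiv.ext hfix, comm_scalar _ fun s hs => comm_of_conj g s ?_⟩
    let o : Oct K := (![0, 0, 1, 0, 0, 0, 0, 0] : Fin 8 → K)
    have ho : Im o := by
      show (0 : K) + 0 = 0
      ring
    have h3 := hten s hs o ho
    rw [hfix] at h3
    ext i j
    have h4 := congrFun (congrFun (congrFun h3 i) j) 2
    have h5 : ∀ r : K, (r • o) 2 = r := by
      intro r
      rw [smul_ap]
      show r * 1 = r
      ring
    have h6 : (((g : Matrix (Fin n) (Fin n) K) * s *
      (↑g⁻¹ : Matrix (Fin n) (Fin n) K)) i j • o) 2 = (s i j • o) 2 := h4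
    rwa [h5, h5] at h6

end Pool.Agent.Q76.HO.KER
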